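import Mathlib
import Pool.Agent.TH115.GD.Defs
import Pool.Agent.R939.EI.Den2
import Pool.Agent.Helper70K9.TN.Stm
import Pool.Agent.Helper70K9.TN.Almost1

/-!
# The Tate conjecture at 3 for almost all elliptic surfaces with a section of order three, and covers

Let `k` be a number field, `K = k(t)`, `F = k'(t)` with `k'` a separable closure of `k`. Every elliptic
curve over `K` with a rational point of order three has an equation `E : y² + a x y + b y = x³` with
polynomials `a`, `b`; the discriminant is `b³ Δ` with `Δ = a³ - 27 b`. `TateAt 3` says that all the
classes in `V₃ Sel(E / F)` which are fixed by the Galois group of `k` come from `E(K)`: the Tate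
conjecture for divisors at the prime 3 on the elliptic surface over the projective line with generic
fibre `E`.

Fix `r ≥ 0` and `m ≥ 1`, `m ≠ 3`, with `max (3 r) m ≥ 4` (for smaller degrees the surface is rational).
Let `a` of degree at most `r` and `b` of degree at most `m` run through the polynomials whose
coefficients are integers of `k` with coordinates between `-H` and `H` (with respect to a basis of the
ring of integers).

Theorem. For all `(a, b)`, with the exception of a proportion which tends to zero if `H` tends to
infinity, the following holds. The Tate conjecture at 3 holds for the elliptic surface

  `y² + a(h(t)) x y + b(h(t)) y = x³`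

for ALL polynomials `h` over `k` of degree prime to three (and odd, if `k` does not contain the
primitive cube roots of unity) such that `b(h(t))` and `Δ(h(t))` are irreducible, and for ALL
`h = tᴹ` with `M` prime to six.

In particular it holds for `E` itself (`h = t`), and almost every surface with a section of order three
gives surfaces of unbounded genus for which the Tate conjecture at 3 holds. There is no condition on
the members and none on the degrees; in the generic case the degree of `Δ` is `3 r`, divisible by
three, which is excluded in `MP_89bcae_ag.ThreeTorsionSection`.

Proof. Criterion (`TN.Sub`, `TN.Comp`): it is enough that `b` and `Δ` are irreducible, that neither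
the field generated by a root of `b` nor that of a root of `Δ` contains a cubic extension of `k`, and
that the latter does not contain a quadratic extension of `k`; these conditions are passed on to the
compositions with `h` of degree prime to three (prime to six) which remain irreducible, by a computation
with indices of subgroups of the Galois group. So the cube roots of unity are in none of the fields
generated by a root of `Δ(h(t))`, unless they are in `k`, and no cyclic cubic extension of `k` (or of
`k(ζ₃)`) is in the field generated by a root. Then the descents by the two isogenies of degree three in
the version for invariant classes (`Helper7K9.T3.main3`) give the Tate conjecture.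

Density (`TN.Loc`, `TN.Pol`, `TN.Nf`): if the field of a root of `f`, of degree `N`, contains an
extension `L` of `k` of degree `e`, then `f` has a factor of degree `N / e` over `L`. This is excluded for
almost all members of the family by a local model at a prime over `p`, where the Newton polygon of `f` is
the one of `t ^ N + p t`: it has an edge of length `N - 1`, and over an extension of degree at most `e` the
factors have degree at least `(N - 1) / gcd (e', N - 1)`, `e' ≤ e`, up to the root near zero. For all the
layers `tᴹ` at the same time it is shown (`TN.NoT`) that the quotient of the last and the first
coefficient of `b` and of `Δ` is a perfect power (of any exponent) for 0 percent of the parameters.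
-/

namespace Pool.Agent.Results.MP_89bcae_ag.AlmostAllThreeTorsion

open Polynomial NumberField Pool.Agent.TH115.GD Pool.Agent.R939.EI Pool.Agent.Helper70K9.TN

theorem result {k k' K F : Type} [Field k] [NumberField k] [Field k'] [Algebra k k'] [Field K]
    [Algebra k[X] K] [Field F] [Algebra k'[X] F] [IsFractionRing k'[X] F] [Algebra K F]
    (hT : IsTower k k' K F) {J : Type} [Fintype J] (B : Module.Basis J ℤ (𝓞 k)) {r m : ℕ}
    (hm1 : 1 ≤ m) (hm3 : m ≠ 3) (hN : 4 ≤ max (3 * r) m) {η : ℝ} (hη : 0 < η) :
    ∃ H0 : ℕ, ∀ H : ℕ, H0 ≤ H →
      (({x : (Fin (r + 1) → 𝓞 k) × (Fin (m + 1) → 𝓞 k) |
        ((∀ j t, |B.repr (x.1 j) t| ≤ (H : ℤ)) ∧ ∀ j t, |B.repr (x.2 j) t| ≤ (H : ℤ)) ∧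
        ¬ TateCovers3 k' K F (polA fun j => algebraMap (𝓞 k) k (x.1 j))
          (polA fun j => algebraMap (𝓞 k) k (x.2 j))}.ncard : ℕ) : ℝ) ≤
        η * (2 * H + 1) ^ (Fintype.card J * (r + 1 + (m + 1))) :=
  almost_covers hT B hm1 hm3 hN hη

end Pool.Agent.Results.MP_89bcae_ag.AlmostAllThreeTorsion
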