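import Mathlib
import Pool.Agent.TH115.GD.Defs
import Pool.Agent.Helper23K9.Q7.App

/-!
# The Tate conjecture at 3 for elliptic surfaces over curves of every genus

Let `k` be a field of characteristic different from 2 and 3, `k'` a separable closure, `K = k(t)`,
`F = k'(t)`, and let

`E : y² + a x y + b y = x³`,

with polynomials `a`, `b` over `k`, `bad = b (a³ - 27 b) ≠ 0`. Every elliptic curve over `K` with a
rational point of order three is of this form. Let `D` be a polynomial of odd degree `2 g + 1` over
`k`, and `C` the hyperelliptic curve `s² = D(t)`, of genus `g` if `D` is separable. Its function field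
is `K(r)`, where `r` is a square root of `D` in a separable closure of `F`.

`TateOver` is the Tate conjecture for divisors, at a prime, for the elliptic surface over the curve
`C` with generic fibre `E`: all the classes in `V₃ Sel(E / F(r))` which are fixed by the Galois group of
`k` come from `E(K(r))` (this is the part of the second cohomology which does not come from the zero
section and the components of the fibres). `TateC` is this statement for `D`.

Theorem.
(1) A criterion. Let `D` be separable, of odd degree, `z` a primitive third root of unity, and suppose
that the irreducible factors of `bad` are separable. Suppose that the Tate conjecture at 3 holds for the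
elliptic surface over the projective line with generic fibre `E` (`TateAt 3`), that for all the roots
`θ` of `bad` in `k'` with `D(θ) ≠ 0` the number `D(θ)` is not a square in the field `k(z, θ)` (`NonSq`),
and that the Jacobian of the curve `C` has no point of order three over `k(z)` (`NoThree`). Then the
Tate conjecture at 3 holds for the elliptic surface over `C` with generic fibre `E`.
(2) A fixed curve `C`, of any genus. Let `k` be a number field and suppose that the Jacobian of the curve
`C` has no point of order three over `k(z)`. Fix `r ≥ 0` and `m ≥ 1`, `m ≠ 3`, with `max (3 r) m ≥ 4`. For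
almost all `(a, b)`, `a` of degree at most `r`, `b` of degree at most `m`, with integral coefficients
with coordinates in `[-H, H]`, the Tate conjecture at 3 holds for the elliptic surface over `C` with
generic fibre `E`; and it holds for the elliptic surface over the projective line with generic fibre the
quadratic twist `E⁽ᴰ⁾` of `E` by `D`, and multiplication by three is bijective on `E⁽ᴰ⁾(K)`, so that
`E(K(C))` and `E(K)` have the same rank (`TateD`). Almost all: the proportion of the exceptions tends
to zero if `H` tends to infinity (`MostSurfaces`).
(3) A fixed curve `E`. Let `k` be a number field and suppose that the Tate conjecture at 3 holds for the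
elliptic surface over the projective line with generic fibre `E`. Then it holds for the elliptic surface
over the curve `s² = c t³ + a₂ t² + a₁ t + a₀`, of genus one, for almost all the integers `a₀` of `k`,
uniformly in the integers `a₁`, `a₂` (`MostCovers`), for each integer `c ≠ 0`.

The surfaces in (2) and (3) are of unbounded geometric genus and irregularity.

Proof. Let `H` be the group of the `σ` in `Gal(Sep F / F)` with `σ r = r`, of index two, `t` an element
with `t r = - r`. For an invariant locally trivial class `c` of `H` with values in `T₃ E` the
corestriction is an invariant locally trivial class of `Gal(Sep F / F)`: its restriction to `H` is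
`c + tc`. The isomorphism of `E` with `E⁽ᴰ⁾` over `F(r)` is anti-invariant under `t`, and so the
restriction of the corestriction of the image of `c` in `E⁽ᴰ⁾` is `c - tc`. By the Tate conjecture at 3
for the surfaces over the projective line with generic fibres `E` and `E⁽ᴰ⁾` both come from points, and
so does their sum `2 c`. For the local conditions there are two cases: if there is one place above a
place `v` of `F`, an element of the local Galois group can be taken for `t`, otherwise there are
two places above `v`, and `c` and `tc` are trivial at the first of them.

For `E⁽ᴰ⁾` one has the criterion of `MP_4776b1_ag.OddTwistsThree`. In (2) it has to be shown that for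
almost all `(a, b)` the values of `D` at the roots of `b` and of `a³ - 27 b` are not squares in the
field generated by the root and `z`, that is, that those of `D` and `- 3 D` are not squares in the
field generated by the root. By density transfer it is enough to do this over a `p`-adic field,
`p ≠ 3`, for polynomials near `(t - ρ)ᴺ + p`, where `ρ` is a `p`-adic root of `D` of odd order.
-/

namespace Pool.Agent.Results.MP_89bcae_ag.HyperellipticBaseThree

open Polynomial NumberField Pool.Agent.TH115.GD Pool.Agent.Helper7K9.T3 Pool.Agent.Helper23K9.Q3
  Pool.Agent.Helper23K9.Q4 Pool.Agent.Helper23K9.Q7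

theorem result :
    (∀ {k k' K F : Type} [Field k] [Field k'] [Algebra k k'] [Field K] [Algebra k[X] K] [Field F]
      [Algebra k'[X] F] [IsFractionRing k'[X] F] [Algebra K F] (_ : IsTower k k' K F)
      (_ : (2 : k) ≠ 0) (_ : (3 : k) ≠ 0) (a b D : k[X]) (_ : bad3 a b ≠ 0)
      (_ : ∀ π : k[X], Irreducible π → π ∣ bad3 a b → π.Separable) (_ : Odd D.natDegree)
      (_ : D.Separable) (z : k') (_ : z ^ 2 + z + 1 = 0),
      TateP k' K F a b → NonSq a b D z → NoThreeOver z D → TateC k' K F a b D) ∧
    (∀ {k k' K F : Type} [Field k] [NumberField k] [Field k'] [Algebra k k'] [Field K]
      [Algebra k[X] K] [Field F] [Algebra k'[X] F] [IsFractionRing k'[X] F] [Algebra K F]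
      (_ : IsTower k k' K F) {J : Type} [Fintype J] (B : Module.Basis J ℤ (𝓞 k)),
      (∀ r m : ℕ, 1 ≤ m → m ≠ 3 → 4 ≤ max (3 * r) m → ∀ D : k[X], Odd D.natDegree → D.Separable →
        ∀ z : k', z ^ 2 + z + 1 = 0 → NoThreeOver z D → MostSurfaces k' K F B r m D) ∧
      (∀ a b : k[X], bad3 a b ≠ 0 → TateP k' K F a b → ∀ c : 𝓞 k, c ≠ 0 →
        MostCovers k' K F B a b c)) :=
  ⟨fun hT h2 h3 _ _ _ hbad hsep hD hDs _ hz h1 hb hno =>
      crit_curve hT h2 h3 hbad hsep h1 hD hDs hz hb hno,
    fun hT _ _ B => ⟨fun _ _ hm1 hm3 hN _ hD hDs _ hz hno =>
        most_surfaces B hT hm1 hm3 hN hD hDs hz hno,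
      fun _ _ hbad h1 _ hc => most_covers B hT hbad h1 hc⟩⟩

end Pool.Agent.Results.MP_89bcae_ag.HyperellipticBaseThree
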