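import Mathlib
import Pool.Agent.TH115.GD.Defs
import Pool.Agent.Helper23K9.Q8.Dens

/-!
# The Tate conjecture at 2 for elliptic surfaces over hyperelliptic and multiquadratic curves

Let `k` be a field of characteristic different from 2, `k'` a separable closure, `K = k(t)`,
`F = k'(t)`, and let `E : y² = x (x² + a x + b)` be an elliptic curve over `K` with a rational point of
order two, `a`, `b` polynomials. Let `D₁, ..., D_m` be nonzero polynomials, `c₁, ..., c_m ≠ 0`
constants and `h` a polynomial of odd degree, and `C` the curve `s_i² = c_i D_i(h(t))`,
`i = 1, ..., m` (for `m = 1` a hyperelliptic curve). Its function field is `K(r₁, ..., r_m)`, where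
`r_i` is a square root of `c_i D_i(h(t))` in a separable closure of `F`; the curve is geometrically
irreducible if the degree of `F(r₁, ..., r_m)` over `F` is `2 ^ m` (`Indep`).

`TateOverR 2` is the Tate conjecture for divisors, at the prime 2, for the elliptic surface over the
curve `C` with generic fibre `E(h(t)) : y² = x (x² + a(h(t)) x + b(h(t)))`: all the classes in
`V₂ Sel(E(h(t)) / F(r))` which are fixed by the Galois group of `k` come from `K(r)`-rational points
(this is the part of the second cohomology which does not come from the zero section and the
components of the fibres).

Theorem. In (1) and (2) let `b` and `a² - 4 b` be nonzero and satisfy the condition `NotNorm` (not a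
constant times a square or times a norm of a polynomial over a quadratic extension of `k`), and let
`OnlyTrivial` hold for `(a, b)` and for `(-2 a, a² - 4 b)`, the curve isogenous to `E` (`Generic`);
all this holds for example if `b` and `a² - 4 b` are irreducible of odd degree.
(1) A criterion. Suppose that `b` and `a² - 4 b` are not squares modulo the primes which divide
`D₁ ⋯ D_m` (`InertIn`), and that the primes which divide `b (a² - 4 b) D₁ ⋯ D_m` remain prime after
`t ↦ h(t)`. Then `TateOverR 2` holds over the curve `C`, if it is geometrically irreducible
(`TateOverM`).
(2) Let `k` be a number field. Fix degrees `n₁, ..., n_u ≥ 1` and let `D₁, ..., D_u` of degree at most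
`n_l` run through the polynomials whose coefficients are integers of `k` with coordinates between
`-H` and `H`. Then for all of them, with the exception of a proportion which tends to zero if `H`
tends to infinity, the following holds (`AllBases`): for ALL polynomials `h` of odd degree such that
the prime divisors of `b (a² - 4 b)` remain prime after `t ↦ h(t)` (a condition on `E` and `h`, not on
the `D_l`) and such that `h` is monic with integral coefficients or the prime divisors of the `D_l`
remain prime, too, and for ALL constants `c_i ≠ 0`, `TateOverR 2` holds over all the curves
`s_i² = c_i D_{S_i}(h(t))`, `i = 1, ..., m`, where `D_S` is the product of the `D_l`, `l` in `S`, for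
all sets `S_1, ..., S_m` (for example `s_l² = c_l D_l(h(t))`, `l = 1, ..., u`, or
`s² = c D₁(h(t)) ⋯ D_u(h(t))`).
(3) Let `k` be a number field and `D₁, ..., D_m ≠ 0` fixed, `r ≥ 2`, `s ≥ 1`, `s ≠ 2`. Let `a`, `b` of
degrees at most `r` and `s` run through the polynomials whose coefficients are integers of `k` with
coordinates between `-H` and `H`. Then for all of them, with the exception of a proportion which tends
to zero if `H` tends to infinity, the following holds (`AllCovers`): for ALL constants `c_i ≠ 0` and
ALL polynomials `h` of odd degree such that the prime divisors of `b (a² - 4 b) D₁ ⋯ D_m` remain prime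
after `t ↦ h(t)` (for example `h = t`), `TateOverR 2` holds over the curve `s_i² = c_i D_i(h(t))`.

So the Tate conjecture at 2 holds for the pullbacks of `E` to almost all hyperelliptic and
multiquadratic curves, of every genus and every gonality, and for each of them for the pullback by all
the good maps `h` and for all the twists by constants; and over every given curve `s_i² = D_i(t)` it
holds for almost all elliptic surfaces with a section of order two which come from the projective
line. There is no condition on the Jacobian of the curve.

Proof. (3) follows from the criterion with the large sieve: for almost all `a`, `b` the polynomials `b`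
and `a² - 4 b` are not squares modulo the primes which divide the `D_i`, and the conditions on `a`, `b`
hold for almost all surfaces (`Pool.Agent.R939.HI.main_allI`). Criterion: induction on `m`. Let `R` be
the set of `r_1, ..., r_{m-1}` and `r = r_m`, `G'` the group of the `σ` in `Gal(Sep F / F)` which fix
`R`, `G` the subgroup of index two with `σ r = r`, `t` an element of `G'` with `t r = - r`. For an
invariant locally trivial class `c` of `G` with values in `T₂ E` the corestriction is an invariant
locally trivial class of `G'`: its restriction to `G` is `c + tc`. The isomorphism of `E` with the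
quadratic twist `E'` by `r²` over `F(r)` is anti-invariant under `t`, and so the restriction of the
corestriction of the image of `c` in `E'` is `c - tc`. By induction for `E` and for `E'` both come
from points, after multiplication with a power of 2, and so does their sum `2 c`. For the local
conditions there are two cases: if there is one place above a place `v` of `F(R)`, an element of the
local Galois group can be taken for `t`, otherwise there are two places above `v`, and `c` and `tc` are
trivial at the first of them. The start of the induction is the Tate conjecture at 2 for the surfaces
over the projective line whose generic fibres are the quadratic twists of `E` by the products of the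
`D_i` (`Pool.Agent.R939.EI.Tw1` and, for almost all `D_i`, `MP_89bcae_ag.AlmostAllTwists`).
-/

namespace Pool.Agent.Results.MP_89bcae_ag.HyperellipticBaseTwo

open Polynomial NumberField Pool.Agent.TH115.GD Pool.Agent.R939.EI Pool.Agent.Helper23K9.Q8
open Pool.Agent.Helper23K9.Q7 (Generic)

theorem result :
    (∀ {k k' K F : Type} [Field k] [Field k'] [Algebra k k'] [Field K] [Algebra k[X] K] [Field F]
      [Algebra k'[X] F] [IsFractionRing k'[X] F] [Algebra K F] (_ : IsTower k k' K F)
      (_ : (2 : k) ≠ 0) (a b : k[X]), Generic a b →
      ∀ {m : ℕ} (D : Fin m → k[X]) (h : k[X]) (c : Fin m → k), InertIn a b (∏ i, D i) →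
      (∀ i, c i ≠ 0) → Odd h.natDegree → Inert (b * (a ^ 2 - 4 * b) * ∏ i, D i) h →
      TateOverM k' K F a b h D c) ∧
    (∀ {k k' K F : Type} [Field k] [NumberField k] [Field k'] [Algebra k k'] [Field K]
      [Algebra k[X] K] [Field F] [Algebra k'[X] F] [IsFractionRing k'[X] F] [Algebra K F]
      (_ : IsTower k k' K F) {J : Type} [Fintype J] (B : Module.Basis J ℤ (𝓞 k)),
      (∀ a b : k[X], Generic a b → ∀ {u : ℕ} (n : Fin u → ℕ), (∀ l, 1 ≤ n l) →
        MostBases k' K F B a b n) ∧
      ∀ {m : ℕ} (D : Fin m → k[X]), (∀ i, D i ≠ 0) → ∀ r s : ℕ, 2 ≤ r → 1 ≤ s → s ≠ 2 →
        MostPairs k' K F B D r s) :=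
  ⟨fun hT h2 _ _ hG _ D _ _ hD hc hodd hi => crit hT h2 hG hD
      (fun i => Finset.prod_ne_zero_iff.1 hD.1 i (Finset.mem_univ i))
      (fun i _ _ h => h.trans (Finset.dvd_prod_of_mem D (Finset.mem_univ i))) hc hodd hi,
    fun hT _ _ B => ⟨fun _ _ hG _ _ hn => most_bases B hT hG hn,
      fun _ hD _ _ hr hs1 hs2 => most_pairs B hT hr hs1 hs2 hD⟩⟩

end Pool.Agent.Results.MP_89bcae_ag.HyperellipticBaseTwo
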