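import Mathlib
import Pool.Agent.TH115.GD.Defs
import Pool.Agent.Helper7K9.T3.Stm
import Pool.Agent.Helper7K9.T3.Inst

/-!
# The Tate conjecture at 3 for elliptic surfaces with a section of order three

Let `k` be a field of characteristic different from 3 (for example finitely generated over its
prime field), `k'` a separable closure, `K = k(t)`, `F = k'(t)`, and

`E : y² + a x y + b y = x³`

with polynomials `a`, `b` over `k`. Every elliptic curve over `K` with a rational point of order
three has such an equation. Put `Δ = a³ - 27 b`; the discriminant of `E` is `b³ Δ`. For general `a`,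
`b` of degrees `≤ n` and `≤ 3 n` the elliptic surface `X` over the projective line with generic fibre
`E` has geometric genus `n - 1`.

`TateAt 3` says that all the classes in `V₃ Sel(E / F)` which are fixed by the Galois group of `k`
come from `E(K)`; as `Br(X ⊗ k') = Ш(E / F)` up to `p`-torsion (Grothendieck), this is the Tate
conjecture for divisors at the prime 3 on `X`.

Theorem.
(1) A criterion. Let `z` be a primitive cube root of unity in `k'`, and suppose that all irreducible
factors of `b Δ` are separable. The Tate conjecture at 3 holds for `E` if no cyclic cubic extension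
of `k` (of `k(z)`) is contained in all the fields generated by a root of `b` (of `Δ`) of multiplicity
prime to three (`NoCubic`), and the points of `E(K)` and of the isogenous curve `E'(K)` fill the groups
of pairs of divisors which the descents by the two isogenies of degree three allow for classes fixed
by the Galois group: for `E`, monic `A₁`, `A₂` over `k` with `A₁ A₂` squarefree and dividing `b`
(`EnoughPoints3`); for `E'`, monic `A₁`, `A₂` over `k(z)` with `A₁ A₂` squarefree and dividing `Δ`,
exchanged by the automorphisms which do not fix `z` (`EnoughDual3`); both with a condition at infinity.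
(2) The generic case: `b` and `Δ` are constants times powers, with exponents prime to three, of
separable irreducible polynomials `π`, `ρ` of degrees prime to three, and `k` contains the primitive
cube roots of unity or the degree of `ρ` is odd. Then the Tate conjecture at 3 holds for `E`.
(3), (4) Families with one (two independent) sections of infinite order: `b = p q`,
`q = p - g³ - a g` (respectively `b = (g + 1) p q`, `q = (1 - g) p - 2 g² + 4 g`,
`a = g p + g² - 2 g - 4`) with irreducible `p`, `q`, `g + 1`, one of them of degree prime to three, and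
`Δ` with the condition `GoodDisc`. The sections are exhibited, and the Tate conjecture at 3 holds.

There is no condition on the fibre at infinity and none on the size of `k` or the degrees, so the
geometric genus is not bounded. The proof is a descent by the isogeny `E → E'` with the kernel
`ℤ / 3` and by its dual with the kernel `μ₃`, for the cocycles with values in the Tate module whose
class is fixed by the Galois group. The pairs of divisors over `k(z)` in (1) come from the action of
the Galois group on `μ₃`.
-/

namespace Pool.Agent.Results.MP_89bcae_ag.ThreeTorsionSection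

open Polynomial WeierstrassCurve.Affine Pool.Agent.TH115.GD Pool.Agent.Helper7K9.T3
open scoped Classical

theorem result {k k' K F : Type} [Field k] [Field k'] [Algebra k k'] [Field K] [Algebra k[X] K]
    [Field F] [Algebra k'[X] F] [IsFractionRing k'[X] F] [Algebra K F] (hT : IsTower k k' K F)
    (h3 : (3 : k) ≠ 0) {a b : k[X]} (hb : b ≠ 0) (hd : a ^ 3 - 27 * b ≠ 0)
    (hsep : ∀ π : k[X], Irreducible π → π ∣ b * (a ^ 3 - 27 * b) → π.Separable) :
    (∀ z : k', z ^ 2 + z + 1 = 0 → NoCubic k k' ⊤ b → NoCubic k k' (fixZ k z) (a ^ 3 - 27 * b) →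
      EnoughPoints3 K F a b → EnoughDual3 K F z a b →
        TateAt (F := F) 3 k' (crv3 (algebraMap k[X] K a) (algebraMap k[X] K b))) ∧
    (∀ (u v : k) (π ρ : k[X]) (m n : ℕ), Irreducible π → Irreducible ρ →
      b = C u * π ^ m → a ^ 3 - 27 * b = C v * ρ ^ n → ¬ 3 ∣ m → ¬ 3 ∣ n →
      ¬ 3 ∣ π.natDegree → ¬ 3 ∣ ρ.natDegree → (∃ x : k, x ^ 2 + x + 1 = 0) ∨ Odd ρ.natDegree →
        TateAt (F := F) 3 k' (crv3 (algebraMap k[X] K a) (algebraMap k[X] K b))) ∧
    (∀ p g q : k[X], q = p - g ^ 3 - a * g → b = p * q → g ≠ 0 → Irreducible p → Irreducible q →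
      ¬ q ∣ p → HasFactor3 b → GoodDisc (a ^ 3 - 27 * b) →
        TateAt (F := F) 3 k' (crv3 (algebraMap k[X] K a) (algebraMap k[X] K b)) ∧
        ∃ P : Pt (crv3 (algebraMap k[X] K a) (algebraMap k[X] K b)) K,
          (∃ hn, P = Point.some (algebraMap k[X] K (p * g)) (algebraMap k[X] K (p * g ^ 3)) hn) ∧
          ∀ n : ℕ, n ≠ 0 → n • P ≠ 0) ∧
    (∀ p g q : k[X], q = (1 - g) * p - 2 * g ^ 2 + 4 * g → a = g * p + g ^ 2 - 2 * g - 4 →
      b = (g + 1) * p * q → Irreducible (g + 1) → Irreducible p → Irreducible q → (2 : k) ≠ 0 →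
      g ≠ 0 → ¬ (g + 1) ∣ p → ¬ (g + 1) ∣ q → ¬ p ∣ q → ¬ q ∣ p → HasFactor3 b →
      GoodDisc (a ^ 3 - 27 * b) →
        TateAt (F := F) 3 k' (crv3 (algebraMap k[X] K a) (algebraMap k[X] K b)) ∧
        ∃ P : Fin 2 → Pt (crv3 (algebraMap k[X] K a) (algebraMap k[X] K b)) K,
          (∃ hn, P 0 = Point.some (algebraMap k[X] K (p * g))
            (algebraMap k[X] K (p * g ^ 3)) hn) ∧
          (∃ hn, P 1 = Point.some (algebraMap k[X] K (q * -2))
            (algebraMap k[X] K (q * (-2) ^ 3)) hn) ∧
          LinearIndependent ℤ P) :=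
  ⟨fun _ hz hNb hNd hpA hpB => main3 hT h3 hb hd hsep hz hNb hNd hpA hpB,
    fun _ _ _ _ m n hπ hρ hbe hde hm hn dπ dρ hz => by
      have hm0 : m ≠ 0 := fun h => hm (h ▸ dvd_zero 3)
      have hn0 : n ≠ 0 := fun h => hn (h ▸ dvd_zero 3)
      exact tate_prime_powers hT h3 hb hd hπ hρ
        (hsep _ hπ ((hbe ▸ (dvd_pow_self _ hm0).mul_left _ : _ ∣ b).mul_right _))
        (hsep _ hρ ((hde ▸ (dvd_pow_self _ hn0).mul_left _ : _ ∣ a ^ 3 - 27 * b).mul_left _))
        hbe hde hm hn dπ dρ hz,
    fun _ _ _ hq hbe hg ip iq npq h1 h2 => rank_one hT h3 hb hd hsep hq hbe hg ip iq npq h1 h2,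
    fun _ _ _ hq hae hbe ig ip iq h20 hg n1 n2 n3 n4 h1 h2 =>
      rank_two hT h3 hb hd hsep hq hae hbe ig ip iq h20 hg n1 n2 n3 n4 h1 h2⟩

end Pool.Agent.Results.MP_89bcae_ag.ThreeTorsionSection
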